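import Pool.Agent.HMT.Stmts

/-!
# Squad HMT, row THE: few edges
-/

namespace Pool.Agent.HMT.H49

open Pool.Agent.HMT

/-- permutations of the hubs of sign `ε` -/
abbrev PS (q : ℕ) (ε : ℤˣ) : Type := {g : Equiv.Perm (Fin q → Bool) // Equiv.Perm.sign g = ε}

/-- the vertices of the graph -/
abbrev VV (q T : ℕ) (ε : ℤˣ) : Type := (PS q ε × XX q T) ⊕ ((Fin q → Bool) ⊕ RR q)

/-- leg vertices -/
noncomputable def lg {q T : ℕ} {ε : ℤˣ} (g : PS q ε) (i : Fin q → Bool) (a : Fin (T + 1)) : VV q T ε :=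
  Sum.inl (g, ⟨some (i, a), 0⟩)

theorem lg_inj {q T : ℕ} {ε : ℤˣ} {g g' : PS q ε} {i i' : Fin q → Bool} {a a' : Fin (T + 1)}
    (h : lg g i a = lg g' i' a') : g = g' ∧ i = i' ∧ a = a' := by
  have h2 := Sum.inl_injective h
  have h1 := (Prod.mk.inj h2).1
  have h3 := (Prod.mk.inj h2).2
  have h4 := (Sigma.mk.inj h3).1
  have h5 := Option.some_injective _ h4
  exact ⟨h1, (Prod.mk.inj h5).1, (Prod.mk.inj h5).2⟩

/-- directed edges (parent, child); the legs end at the hubs -/
def dr (q T : ℕ) (ε : ℤˣ) : VV q T ε → VV q T ε → Prop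
  | .inl (g, x), .inl (h, y) => g = h ∧ srel q T x y
  | .inl (g, x), .inr (.inl j) => ∃ i, x = ⟨some (i, Fin.last T), 0⟩ ∧ g.1 i = j
  | .inr p, .inr (.inr r) => p = rpar q r
  | _, _ => False

theorem adj_dr {q T : ℕ} {ε : ℤˣ} {Z : Finset (cf q T).R} {v w : VV q T ε}
    (h : ((cf q T).Gr ε Z).Adj v w) : dr q T ε v w ∨ dr q T ε w v := by
  have key : ∀ v w : VV q T ε, (cf q T).rel ε Z v w → dr q T ε v w ∨ dr q T ε w v := by
    rintro (⟨g, x⟩ | j | r) (⟨h, y⟩ | j' | r') hr
    · obtain ⟨h1, h2⟩ := hr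
      change (SimpleGraph.fromRel (srel q T)).Adj x y at h2
      rw [SimpleGraph.fromRel_adj] at h2
      rcases h2.2 with h3 | h3
      · left
        exact ⟨h1, h3⟩
      · right
        exact ⟨h1.symm, h3⟩
    · left
      change x = (cf q T).e (g.1.symm j') at hr
      exact ⟨g.1.symm j', hr, by simp⟩
    · exact hr.elim
    · exact hr.elim
    · exact hr.elim
    · left
      exact hr.1
    · exact hr.elim
    · exact hr.elim
    · left
      exact hr.1
  have h1 : (SimpleGraph.fromRel ((cf q T).rel ε Z)).Adj v w := h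
  rw [SimpleGraph.fromRel_adj] at h1
  rcases h1.2 with h2 | h2
  · exact key v w h2
  · exact (key w v h2).symm

theorem srel_unique {q T : ℕ} {x x' y : XX q T} (h : srel q T x y) (h' : srel q T x' y) :
    x = x' := by
  obtain ⟨kx1, cx⟩ := x
  obtain ⟨kx2, cx'⟩ := x'
  obtain ⟨ky, cy⟩ := y
  rcases h with ⟨h1, h2, h3⟩ | ⟨h1, h2, h3⟩
  · rcases h' with ⟨h1', h2', h3'⟩ | ⟨h1', h2', h3'⟩
    · simp only at h1 h1' h2 h2'
      subst h1
      subst h1'
      have : cx = cx' := Fin.ext (h2.trans h2'.symm)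
      rw [this]
    · exact (h3 h2').elim
  · rcases h' with ⟨h1', h2', h3'⟩ | ⟨h1', h2', h3'⟩
    · exact (h3' h2).elim
    · simp only at h1 h1' h3 h3'
      have hk : kx1 = kx2 := by
        rcases h3 with ⟨e1, i, e2⟩ | ⟨i, a, b, e1, e2, e3⟩
        · rcases h3' with ⟨e1', i', e2'⟩ | ⟨i', a', b', e1', e2', e3'⟩
          · rw [e1, e1']
          · rw [e2] at e2'
            have e4 := (Prod.mk.inj (Option.some_injective _ e2')).2
            rw [← e4] at e3'
            simp at e3'
        · rcases h3' with ⟨e1', i', e2'⟩ | ⟨i', a', b', e1', e2', e3'⟩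
          · rw [e2] at e2'
            have e4 := (Prod.mk.inj (Option.some_injective _ e2')).2
            rw [e4] at e3
            simp at e3
          · rw [e2] at e2'
            have e4 := Prod.mk.inj (Option.some_injective _ e2')
            rw [e1, e1', e4.1]
            have e5 : a = a' := by
              apply Fin.ext
              have := congrArg Fin.val e4.2
              omega
            rw [e5]
      subst hk
      have : cx = cx' := Fin.ext (h1.trans h1'.symm)
      rw [this]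

/-- what the assignment has to satisfy -/
def Good (q T : ℕ) (ε : ℤˣ) (B : Set (VV q T ε)) (v w : VV q T ε) :
    VV q T ε ⊕ (PS q ε × (Fin q → Bool)) → Prop
  | .inl t => (t = w ∧ ∀ j, w ≠ Sum.inr (Sum.inl j)) ∨
      ∃ (g : PS q ε) (i : Fin q → Bool) (a : Fin (T + 1)) (b : Fin (T + 1)),
        v = lg g i (Fin.last T) ∧ w = Sum.inr (Sum.inl (g.1 i)) ∧ b.val = a.val + 1 ∧
          t = lg g i b ∧ lg g i a ∉ B
  | .inr (g, i) => v = lg g i (Fin.last T) ∧ w = Sum.inr (Sum.inl (g.1 i))

theorem good_inj {q T : ℕ} {ε : ℤˣ} {B : Set (VV q T ε)} {v w v' w' : VV q T ε}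
    {t : VV q T ε ⊕ (PS q ε × (Fin q → Bool))} (hv : v ∈ B) (hv' : v' ∈ B)
    (hd : dr q T ε v w) (hd' : dr q T ε v' w')
    (h : Good q T ε B v w t) (h' : Good q T ε B v' w' t) : v = v' ∧ w = w' := by
  -- the parent of a vertex which is not a hub
  have par : ∀ {v v' w : VV q T ε}, (∀ j, w ≠ Sum.inr (Sum.inl j)) → dr q T ε v w →
      dr q T ε v' w → v = v' := by
    rintro (⟨g, x⟩ | p) (⟨g', x'⟩ | p') (⟨h, y⟩ | j | r) hw hd hd'
    · obtain ⟨h1, h2⟩ := hd
      obtain ⟨h1', h2'⟩ := hd'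
      rw [h1, h1', srel_unique h2 h2']
    · exact (hw j rfl).elim
    · exact hd.elim
    · exact hd'.elim
    · exact (hw j rfl).elim
    · exact hd.elim
    · exact hd.elim
    · exact (hw j rfl).elim
    · exact hd'.elim
    · exact hd.elim
    · exact (hw j rfl).elim
    · have e1 : p = rpar q r := hd
      have e2 : p' = rpar q r := hd'
      rw [e1, e2]
  -- the parent of a leg vertex
  have parl : ∀ {v : VV q T ε} {g : PS q ε} {i : Fin q → Bool} {a b : Fin (T + 1)},
      b.val = a.val + 1 → dr q T ε v (lg g i b) → v = lg g i a := by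
    intro v g i a b hab hd
    refine par (w := lg g i b) ?_ hd ?_
    · intro j hj
      exact Sum.inl_ne_inr hj
    · refine ⟨rfl, Or.inr ⟨rfl, rfl, Or.inr ⟨i, a, b, rfl, rfl, hab⟩⟩⟩
  rcases t with t | ⟨g, i⟩
  · rcases h with ⟨h1, h2⟩ | ⟨g, i, a, b, h1, h2, h3, h4, h5⟩
    · rcases h' with ⟨h1', h2'⟩ | ⟨g', i', a', b', h1', h2', h3', h4', h5'⟩
      · have e : w = w' := h1.symm.trans h1'
        subst e
        exact ⟨par h2 hd hd', rfl⟩
      · exfalso
        rw [h1] at h4'
        rw [h4'] at hd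
        rw [parl h3' hd] at hv
        exact h5' hv
    · rcases h' with ⟨h1', h2'⟩ | ⟨g', i', a', b', h1', h2', h3', h4', h5'⟩
      · exfalso
        rw [h1'] at h4
        rw [h4] at hd'
        rw [parl h3 hd'] at hv'
        exact h5 hv'
      · rw [h4] at h4'
        obtain ⟨e1, e2, e3⟩ := lg_inj h4'
        subst e1
        subst e2
        rw [h1, h1', h2, h2']
        exact ⟨rfl, rfl⟩
  · obtain ⟨h1, h2⟩ := h
    obtain ⟨h1', h2'⟩ := h'
    rw [h1, h1', h2, h2']
    exact ⟨rfl, rfl⟩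

theorem good_exists {q T : ℕ} {ε : ℤˣ} {B : Set (VV q T ε)} {v w : VV q T ε} (hv : v ∈ B)
    (hw : w ∈ B) (hd : dr q T ε v w) :
    (∃ t ∈ B, Good q T ε B v w (Sum.inl t)) ∨
      ∃ p : PS q ε × (Fin q → Bool), (∀ a : Fin (T + 1), lg p.1 p.2 a ∈ B) ∧
        Good q T ε B v w (Sum.inr p) := by
  by_cases hub : ∀ j, w ≠ Sum.inr (Sum.inl j)
  · left
    exact ⟨w, hw, Or.inl ⟨rfl, hub⟩⟩
  · push Not at hub
    obtain ⟨j, rfl⟩ := hub
    rcases v with ⟨g, x⟩ | p
    · obtain ⟨i, hx, hj⟩ := hd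
      subst hx
      subst hj
      by_cases hfull : ∀ a : Fin (T + 1), lg g i a ∈ B
      · right
        exact ⟨(g, i), hfull, rfl, rfl⟩
      · left
        by_contra hcon
        apply hfull
        -- descend from the end
        have hstep : ∀ (a b : Fin (T + 1)), b.val = a.val + 1 → lg g i b ∈ B → lg g i a ∈ B := by
          intro a b hab hb
          by_contra ha
          exact hcon ⟨lg g i b, hb, Or.inr ⟨g, i, a, b, rfl, rfl, hab, rfl, ha⟩⟩
        have hdesc : ∀ (d : ℕ) (a : Fin (T + 1)), a.val + d = T → lg g i a ∈ B := by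
          intro d
          induction d with
          | zero =>
            intro a ha
            have : a = Fin.last T := Fin.ext (by simpa using ha)
            rw [this]
            exact hv
          | succ d ih =>
            intro a ha
            have h1 : a.val + 1 < T + 1 := by omega
            refine hstep a ⟨a.val + 1, h1⟩ rfl (ih _ ?_)
            show a.val + 1 + d = T
            omega
        intro a
        exact hdesc (T - a.val) a (by have := a.isLt; omega)
    · exact hd.elim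

theorem the : TheStmt := by
  intro q T g ε Z B hgT
  classical
  change Set (VV q T ε) at B
  set H := (((cf q T).Gr ε Z).induce B) with hH
  -- legs contained in B
  let L : Type := {p : PS q ε × (Fin q → Bool) // ∀ a : Fin (T + 1), lg p.1 p.2 a ∈ B}
  -- directed edges
  let D : Type := {p : B × B // dr q T ε p.1.1 p.2.1 ∧ H.Adj p.1 p.2}
  have hfinL : Finite L := Subtype.finite
  have hfinD : Finite D := Subtype.finite
  have hED : Nat.card H.edgeSet ≤ Nat.card D := by
    let f : D → H.edgeSet := fun p => ⟨s(p.1.1, p.1.2), p.2.2⟩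
    apply Nat.card_le_card_of_surjective f
    rintro ⟨e, he⟩
    induction e using Sym2.ind with
    | _ a b =>
      have hab : H.Adj a b := he
      have h1 : ((cf q T).Gr ε Z).Adj a.1 b.1 := hab
      rcases adj_dr h1 with h2 | h2
      · exact ⟨⟨(a, b), h2, hab⟩, rfl⟩
      · exact ⟨⟨(b, a), h2, hab.symm⟩, Subtype.ext Sym2.eq_swap⟩
  have hDB : Nat.card D ≤ Nat.card B + Nat.card L := by
    have hex : ∀ p : D, ∃ t : B ⊕ L, Good q T ε B p.1.1.1 p.1.2.1
        (Sum.map (fun b : B => b.1) (fun l : L => l.1) t) := by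
      rintro ⟨⟨a, b⟩, h1, h2⟩
      rcases good_exists a.2 b.2 h1 with ⟨t, ht, hg⟩ | ⟨p, hp, hg⟩
      · exact ⟨Sum.inl ⟨t, ht⟩, hg⟩
      · exact ⟨Sum.inr ⟨p, hp⟩, hg⟩
    choose f hf using hex
    rw [← Nat.card_sum]
    apply Nat.card_le_card_of_injective f
    intro p p' hpp
    have h1 := hf p
    have h2 := hf p'
    rw [hpp] at h1
    obtain ⟨e1, e2⟩ := good_inj p.1.1.2 p'.1.1.2 p.2.1 p'.2.1 h1 h2
    apply Subtype.ext
    exact Prod.ext (Subtype.ext e1) (Subtype.ext e2)
  have hLB : Nat.card L * (T + 1) ≤ Nat.card B := by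
    have h1 : Nat.card (L × Fin (T + 1)) = Nat.card L * (T + 1) := by
      rw [Nat.card_prod, Nat.card_eq_fintype_card (α := Fin (T + 1)), Fintype.card_fin]
    rw [← h1]
    let f : L × Fin (T + 1) → B := fun p => ⟨lg p.1.1.1 p.1.1.2 p.2, p.1.2 p.2⟩
    apply Nat.card_le_card_of_injective f
    rintro ⟨⟨⟨g1, i1⟩, h1⟩, a1⟩ ⟨⟨⟨g2, i2⟩, h2⟩, a2⟩ h
    obtain ⟨e1, e2, e3⟩ := lg_inj (congrArg Subtype.val h)
    simp only at e1 e2 e3
    subst e1
    subst e2
    subst e3
    rfl
  calc g * Nat.card H.edgeSet ≤ g * (Nat.card B + Nat.card L) :=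
        Nat.mul_le_mul_left _ (hED.trans hDB)
    _ = g * Nat.card B + Nat.card L * g := by ring
    _ ≤ g * Nat.card B + Nat.card L * (T + 1) :=
        Nat.add_le_add_left (Nat.mul_le_mul_left _ (by omega)) _
    _ ≤ g * Nat.card B + Nat.card B := Nat.add_le_add_left hLB _
    _ = (g + 1) * Nat.card B := by ring

end Pool.Agent.HMT.H49
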