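import Pool.Agent.HMT.Stmts

/-!
# Squad HMT, row THG
-/

namespace Pool.Agent.HMT.H49

open Pool.Agent.HMT

theorem card_le_length {V : Type} {G : SimpleGraph V} {v : V} (c : G.Walk v v) (hc : c.IsCycle)
    (m : ℕ) (f : Fin m → V) (hf : Function.Injective f) (hs : ∀ i, f i ∈ c.support) :
    m ≤ c.length := by
  classical
  have hmem : ∀ w ∈ c.support, w ∈ c.support.tail := by
    intro w hw
    rw [SimpleGraph.Walk.mem_support_iff] at hw
    rcases hw with rfl | hw
    · exact SimpleGraph.Walk.end_mem_tail_support hc.not_nil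
    · exact hw
  have h1 : (Finset.univ.image f) ⊆ c.support.tail.toFinset := by
    intro w hw
    obtain ⟨i, _, rfl⟩ := Finset.mem_image.1 hw
    exact List.mem_toFinset.2 (hmem _ (hs i))
  have h2 := Finset.card_le_card h1
  rw [Finset.card_image_of_injective _ hf, Finset.card_univ, Fintype.card_fin] at h2
  have h3 := List.toFinset_card_le c.support.tail
  have h4 : c.support.tail.length = c.length := by
    rw [List.length_tail, SimpleGraph.Walk.length_support]
    rfl
  omega

theorem thg (hTwo : TwoStmt) : ThgStmt := by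
  intro q T g ε Z B hgT v c hc
  classical
  let U : Set ((cf q T).Vert ε) := {w | ∃ h : w ∈ B, (⟨w, h⟩ : B) ∈ c.support}
  have hne : U.Nonempty := ⟨v.1, v.2, c.start_mem_support⟩
  have htwo : ∀ w ∈ U, ∃ a ∈ U, ∃ b ∈ U, a ≠ b ∧ ((cf q T).Gr ε Z).Adj w a ∧
      ((cf q T).Gr ε Z).Adj w b := by
    rintro w ⟨hw, hws⟩
    have h2 := hc.ncard_neighborSet_toSubgraph_eq_two hws
    obtain ⟨a, b, hab, hset⟩ := Set.ncard_eq_two.1 h2
    have ha : c.toSubgraph.Adj ⟨w, hw⟩ a := by
      have : a ∈ c.toSubgraph.neighborSet ⟨w, hw⟩ := by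
        rw [hset]
        simp
      exact this
    have hb : c.toSubgraph.Adj ⟨w, hw⟩ b := by
      have : b ∈ c.toSubgraph.neighborSet ⟨w, hw⟩ := by
        rw [hset]
        simp
      exact this
    refine ⟨a.1, ⟨a.2, ?_⟩, b.1, ⟨b.2, ?_⟩, fun h => hab (Subtype.ext h), ?_, ?_⟩
    · exact (SimpleGraph.Walk.mem_verts_toSubgraph c).1 (c.toSubgraph.edge_vert ha.symm)
    · exact (SimpleGraph.Walk.mem_verts_toSubgraph c).1 (c.toSubgraph.edge_vert hb.symm)
    · exact ha.adj_sub
    · exact hb.adj_sub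
  obtain ⟨h, i, hall⟩ := hTwo q T ε Z U hne htwo
  have hlen : T + 1 ≤ c.length := by
    apply card_le_length c hc (T + 1) (fun a => ⟨_, (hall a).1⟩)
    · intro a b hab
      have h1 := congrArg Subtype.val hab
      have h2 := Sum.inl_injective h1
      have h3 := (Prod.mk.inj h2).2
      have h4 := (Sigma.mk.inj h3).1
      have h5 := Option.some_injective _ h4
      exact (Prod.mk.inj h5).2
    · intro a
      exact (hall a).2
  omega

end Pool.Agent.HMT.H49
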