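import Pool.Agent.HMT.Stmts

/-!
# Squad HMT, row TRB
-/

namespace Pool.Agent.HMT.H49

open Pool.Agent.HMT

theorem con_fst (q T : ℕ) (A : Finset (cf q T).R) {v : (cf q T).J ⊕ (cf q T).R} {j : (cf q T).J}
    (h : (cf q T).Con A v j) :
    Sum.elim (fun x : Fin q → Bool => x) (fun r : RR q => r.1) v = j := by
  induction h with
  | root j => rfl
  | step r j hr h ih =>
    rw [← ih]
    change RR q at r
    change r.1 = Sum.elim (fun x : Fin q → Bool => x) (fun r : RR q => r.1) (rpar q r)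
    obtain ⟨j', c | ⟨b, c⟩⟩ := r
    · rfl
    · simp only [rpar]
      split_ifs <;> rfl

theorem card_fibre (q : ℕ) (j : Fin q → Bool) :
    Nat.card (Fin (kh q) ⊕ Σ b : Fin q, Fin (kr b.val (j b) + 1)) ≤ 2 * (q + 1) ^ 2 := by
  rw [Nat.card_eq_fintype_card, Fintype.card_sum, Fintype.card_sigma, Fintype.card_fin]
  have h : ∀ b ∈ (Finset.univ : Finset (Fin q)),
      Fintype.card (Fin (kr b.val (j b) + 1)) ≤ 2 * q + 2 := by
    intro b _
    rw [Fintype.card_fin]
    unfold kr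
    have hb := b.isLt
    split_ifs <;> omega
  have h2 := Finset.sum_le_card_nsmul _ _ _ h
  rw [Finset.card_univ, Fintype.card_fin, smul_eq_mul] at h2
  unfold kh
  calc 2 * q + 2 + ∑ b : Fin q, Fintype.card (Fin (kr b.val (j b) + 1))
      ≤ 2 * q + 2 + q * (2 * q + 2) := by omega
    _ = 2 * (q + 1) ^ 2 := by ring

theorem trb : TrbStmt := by
  intro q T j
  refine le_trans ?_ (card_fibre q j)
  have hfst : ∀ r : {r : (cf q T).R // (cf q T).Con Finset.univ (Sum.inr r) j},
      (show RR q from r.1).1 = j := fun r => con_fst q T _ r.2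
  let f : {r : (cf q T).R // (cf q T).Con Finset.univ (Sum.inr r) j} →
      (Fin (kh q) ⊕ Σ b : Fin q, Fin (kr b.val (j b) + 1)) := fun r =>
    hfst r ▸ (show RR q from r.1).2
  apply Nat.card_le_card_of_injective f
  rintro ⟨⟨j1, x1⟩, h1⟩ ⟨⟨j2, x2⟩, h2⟩ h
  have e1 : j1 = j := con_fst q T _ h1
  have e2 : j2 = j := con_fst q T _ h2
  subst e1
  subst e2
  have h3 : x1 = x2 := h
  subst h3
  rfl

end Pool.Agent.HMT.H49
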